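import Pool.Agent.H64.STM.Targets

/-!
# Row RES of stm_modules: restriction to the words of the factor with the basis `J`
-/

set_option autoImplicit false

open Matrix Pool.Agent.H64.CC Pool.Agent.H2.NL Pool.Agent.H2.KM Pool.Agent.H64.EV
open Pool.Agent.H64.FTM Pool.Agent.H64.STM

namespace Pool.Agent.H20.STM

section

variable {K : Type} [Field K] {J E : Type} [Fintype J] [DecidableEq J] [Fintype E]
  [DecidableEq E] (F : OForm K J)

theorem two_map (v : List J) : two (Om F E) (v.map Sum.inl) = two F.ω v := by
  match v with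
  | [] => rfl
  | [_] => rfl
  | [a, b] => exact Matrix.fromBlocks_apply₁₁ _ _ _ _ _ _
  | _ :: _ :: _ :: _ => rfl

theorem omk_map (i : ℕ) : ∀ u : List J, omk (Om F E) i (u.map Sum.inl) = omk F.ω i u := by
  induction i with
  | zero => intro u; rfl
  | succ i ih =>
    intro u
    show two (Om F E) ((u.map Sum.inl).take 2) * omk (Om F E) i ((u.map Sum.inl).drop 2) =
      two F.ω (u.take 2) * omk F.ω i (u.drop 2)
    rw [← List.map_take, ← List.map_drop, ih, two_map]

theorem Om_left (a b : J ⊕ E) (h : Om F E a b ≠ 0) : a.isLeft = true ∧ b.isLeft = true := by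
  rcases a with a | a <;> rcases b with b | b
  · exact ⟨rfl, rfl⟩
  · exact absurd (Matrix.fromBlocks_apply₁₂ _ _ _ _ _ _) h
  · exact absurd (Matrix.fromBlocks_apply₂₁ _ _ _ _ _ _) h
  · exact absurd (Matrix.fromBlocks_apply₂₂ _ _ _ _ _ _) h

theorem omk_left (k : ℕ) : ∀ u : List (J ⊕ E), u.length = 2 * k → omk (Om F E) k u ≠ 0 →
    ∀ x ∈ u, x.isLeft = true := by
  induction k with
  | zero =>
    intro u hu _ x hx
    rw [Nat.mul_zero, List.length_eq_zero_iff] at hu
    rw [hu] at hx
    exact absurd hx List.not_mem_nil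
  | succ k ih =>
    intro u hu h
    match u, hu, h with
    | [], hu, _ =>
      rw [List.length_nil] at hu
      omega
    | [_], hu, _ =>
      rw [List.length_singleton] at hu
      omega
    | a :: b :: v, hu, h =>
      have h' : Om F E a b * omk (Om F E) k v ≠ 0 := h
      obtain ⟨ha, hb⟩ := Om_left F a b (left_ne_zero_of_mul h')
      have hv := ih v (by simpa [Nat.mul_add] using hu) (right_ne_zero_of_mul h')
      intro x hx
      rcases List.mem_cons.1 hx with rfl | hx
      · exact ha
      rcases List.mem_cons.1 hx with rfl | hx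
      · exact hb
      · exact hv x hx

theorem ofFn_inl {m : ℕ} (w : Fin m → J) :
    List.ofFn (fun i => (Sum.inl (w i) : J ⊕ E)) = (List.ofFn w).map Sum.inl := by
  rw [List.map_ofFn]
  rfl

end

theorem pf_RES : T_RES := by
  intro K _ J E _ _ _ _ F G
  refine ⟨fun m σ f w => rfl, fun m f g hf => ?_, fun k i t w hi => ?_, fun k w hw i => ?_,
    fun k w => ?_⟩
  · symm
    unfold pr
    refine Fintype.sum_of_injective (fun (v : Fin m → J) (i : Fin m) => (Sum.inl (v i) : J ⊕ E))
      ?_ _ _ ?_ fun v => rfl
    · intro v v' h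
      funext i
      exact Sum.inl_injective (congrFun h i)
    · intro w hw
      have h0 : f w = 0 := by
        by_contra h
        refine hw ?_
        have h1 : ∀ i : Fin m, ∃ a : J, (Sum.inl a : J ⊕ E) = w i := by
          intro i
          have h2 := hf w h i
          rw [decide_eq_true i.2] at h2
          obtain ⟨a, ha⟩ := Sum.isLeft_iff.1 h2
          exact ⟨a, ha.symm⟩
        choose v hv using h1
        exact ⟨v, funext hv⟩
      rw [h0, mul_zero, zero_mul]
  · unfold ev tp
    rw [ofFn_inl, ← List.map_take, ← List.map_drop, omk_map]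
  · rw [decide_eq_true i.2]
    exact omk_left F k (List.ofFn w) (List.length_ofFn) hw (w i) (List.mem_ofFn.2 ⟨i, rfl⟩)
  · unfold dg ev
    rw [ofFn_inl, omk_map]

end Pool.Agent.H20.STM
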