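import Pool.Agent.H64.STM.Targets
import Pool.Agent.H85.FTM.WPU

/-!
# Row WCB of stm_modules: the class of a combination of diagrams
-/

set_option autoImplicit false

open Matrix Pool.Agent.H64.CC Pool.Agent.H2.NL Pool.Agent.H2.KM Pool.Agent.H64.EV
open Pool.Agent.H64.FTM Pool.Agent.H64.STM Pool.Agent.H85.FTM.WPUaux

namespace Pool.Agent.H20.STM

theorem sw_congr_all {K : Type} [Field K] {I : Type} (o : I → Bool) (q : ℕ) :
    ∀ (n : ℕ) (t t' : List I → K), (∀ w : List I, w.length = n → t w = t' w) →
    ∀ w : List I, w.length = n → sw o q t w = sw o q t' w := by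
  induction q with
  | zero =>
    intro n t t' h w hw
    match w, hw with
    | [], hw => exact h [] hw
    | [a], hw => exact h [a] hw
    | a :: b :: l, hw =>
      show ks K (o a) (o b) * t (b :: a :: l) = ks K (o a) (o b) * t' (b :: a :: l)
      rw [h (b :: a :: l) hw]
  | succ q ih =>
    intro n t t' h w hw
    match w, hw with
    | [], hw => exact h [] hw
    | a :: l, hw =>
      exact ih l.length (fun l' => t (a :: l')) (fun l' => t' (a :: l'))
        (fun v hv => h (a :: v) (by rw [← hw, List.length_cons, hv, List.length_cons])) l rfl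

theorem exch_congr {K : Type} [Field K] {I : Type} (o : I → Bool) (n : ℕ) (t t' : List I → K)
    (h : ∀ w : List I, w.length = n → t w = t' w) (js : List ℕ) :
    ∀ w : List I, w.length = n → exch o js t w = exch o js t' w := by
  induction js with
  | nil => exact h
  | cons q js ih =>
    intro w hw
    exact sw_congr_all o q n _ _ ih w hw

theorem pf_WCB (hPFA : T_PFA) : T_WCB := by
  intro K _ _ W m T P ε J E _ _ _ _ F G j i hB k c
  obtain ⟨hP1, _, hP3, hP4, _⟩ := hPFA K (Fin (W.rk T)) (J ⊕ E) j (W.par T) (osum F G).o hB.j_par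
  have hex : ∀ (js : List ℕ) (t : List (J ⊕ E) → K),
      pf j (exch (osum F G).o js t) = exch (W.par T) js (pf j t) := by
    intro js t
    induction js with
    | nil => rfl
    | cons q js ih =>
      show pf j (sw (osum F G).o q (exch (osum F G).o js t)) =
        sw (W.par T) q (exch (W.par T) js (pf j t))
      rw [hP1, ih]
  have homk : ∀ (l : ℕ) (w : List (Fin (W.rk T))), w.length = 2 * l →
      pf j (omk (Om F E) l) w = omk ((1 - ε) * P.form⁻¹) l w := by
    intro l
    induction l with
    | zero =>
      intro w hw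
      rw [Nat.mul_zero, List.length_eq_zero_iff] at hw
      subst hw
      rfl
    | succ l ih =>
      intro w hw
      show pf j (tp 2 (two (Om F E)) (omk (Om F E) l)) w =
        tp 2 (two ((1 - ε) * P.form⁻¹)) (omk ((1 - ε) * P.form⁻¹) l) w
      rw [hP3, hP4, hB.omR]
      unfold tp
      rw [ih (w.drop 2) (by rw [List.length_drop, hw]; omega)]
  refine oper_congr P k _ _ fun w hw => ?_
  induction c with
  | nil =>
    have h0 : comb (osum F G).o (Om F E) k [] = (0 : List (J ⊕ E) → K) := rfl
    rw [h0, pf_zerow]
    rfl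
  | cons x c ih =>
    have h1 : comb (osum F G).o (Om F E) k (x :: c) =
        (x.1 : K) • exch (osum F G).o x.2 (omk (Om F E) k) + comb (osum F G).o (Om F E) k c := by
      funext v
      unfold comb
      rw [List.map_cons, List.sum_cons]
      rfl
    have h2 : comb (W.par T) ((1 - ε) * P.form⁻¹) k (x :: c) w =
        (x.1 : K) * exch (W.par T) x.2 (omk ((1 - ε) * P.form⁻¹) k) w +
          comb (W.par T) ((1 - ε) * P.form⁻¹) k c w := by
      unfold comb
      rw [List.map_cons, List.sum_cons]
    rw [h1, h2, pf_add, pf_smul, hex, ih,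
      exch_congr (W.par T) (2 * k) _ _ (homk k) x.2 w hw]

end Pool.Agent.H20.STM
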